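import Mathlib

/-!
THEOREM Z: in a finitely generated extension `L` of a field `K` of characteristic zero there are
only finitely many intermediate fields which are finite over `K`: their degrees are bounded by the
degree of `L` over `K(s)`, `s` a transcendence basis.
-/

set_option autoImplicit false

namespace Pool.Agent.LibZ64

open IntermediateField

open scoped IntermediateField.algebraAdjoinAdjoin in
theorem linearIndependent_adjoin {K L ι κ : Type} [Field K] [Field L] [Algebra K L] (x : ι → L)
    (hx : AlgebraicIndependent K x) (E : IntermediateField K L) [Algebra.IsAlgebraic K E]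
    (v : κ → E) (hv : LinearIndependent K v) :
    LinearIndependent (adjoin K (Set.range x)) fun i => (v i : L) := by
  classical
  have hx' : AlgebraicIndependent E x := hx.extendScalars E

  have hfr : IsFractionRing (Algebra.adjoin K (Set.range x)) (adjoin K (Set.range x)) := inferInstance
  rw [← LinearIndependent.iff_fractionRing (Algebra.adjoin K (Set.range x)) (adjoin K (Set.range x))]
  rw [linearIndependent_iff']
  intro S a ha i hi
  have hp : ∀ i, ∃ p : MvPolynomial ι K, MvPolynomial.aeval x p = (a i : L) := by
    intro i
    exact (Algebra.adjoin_range_eq_range_aeval K x).le (a i).2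
  choose p hp using hp
  have h1 : MvPolynomial.aeval x (∑ i ∈ S, MvPolynomial.map (algebraMap K E) (p i) *
      MvPolynomial.C (v i)) = (0 : L) := by
    rw [map_sum]
    rw [← ha]
    refine Finset.sum_congr rfl fun i _ => ?_
    rw [map_mul, MvPolynomial.aeval_map_algebraMap, hp, MvPolynomial.aeval_C]
    rfl
  have h2 : (∑ i ∈ S, MvPolynomial.map (algebraMap K E) (p i) *
      MvPolynomial.C (v i)) = 0 := by
    apply hx'
    rw [h1, map_zero]
  have h3 : p i = 0 := by
    ext m
    have h4 := congrArg (MvPolynomial.coeff m) h2
    rw [MvPolynomial.coeff_sum, MvPolynomial.coeff_zero] at h4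
    have h5 : ∑ i ∈ S, MvPolynomial.coeff m (p i) • v i = 0 := by
      rw [← h4]
      refine Finset.sum_congr rfl fun i _ => ?_
      rw [mul_comm, MvPolynomial.coeff_C_mul, MvPolynomial.coeff_map, Algebra.smul_def, mul_comm]
    exact linearIndependent_iff'.1 hv S _ h5 i hi
  apply Subtype.ext
  rw [← hp i, h3, map_zero]
  rfl

theorem finrank_le {K L : Type} [Field K] [Field L] [Algebra K L] [Algebra.EssFiniteType K L] :
    ∃ d : ℕ, ∀ E : IntermediateField K L, FiniteDimensional K E → Module.finrank K E ≤ d := by
  obtain ⟨s, hs⟩ := exists_finset_isTranscendenceBasis K L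
  let F := adjoin K (Set.range ((↑) : s → L))
  have halg : Algebra.IsAlgebraic F L := hs.isAlgebraic_field
  have hess : Algebra.EssFiniteType F L := Algebra.EssFiniteType.of_comp K F L
  have hfin : Module.Finite F L := Algebra.finite_of_essFiniteType_of_isAlgebraic
  refine ⟨Module.finrank F L, fun E hE => ?_⟩
  let b := Module.finBasis K E
  have h1 := linearIndependent_adjoin _ hs.1 E b b.linearIndependent
  have h2 := h1.fintype_card_le_finrank
  simpa using h2

theorem finite_intermediateFields {K L : Type} [Field K] [CharZero K] [Field L] [Algebra K L]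
    [Algebra.EssFiniteType K L] : {E : IntermediateField K L | FiniteDimensional K E}.Finite := by
  classical
  obtain ⟨d, hd⟩ := finrank_le (K := K) (L := L)
  -- a finite extension with maximal degree
  have hne : {m : ℕ | ∃ E : IntermediateField K L, FiniteDimensional K E ∧
      Module.finrank K E = m}.Nonempty := ⟨_, ⊥, inferInstance, rfl⟩
  have hbd : BddAbove {m : ℕ | ∃ E : IntermediateField K L, FiniteDimensional K E ∧
      Module.finrank K E = m} := by
    refine ⟨d, ?_⟩
    rintro m ⟨E, hE, rfl⟩
    exact hd E hE
  obtain ⟨E₀, hE₀, hmax⟩ := Nat.sSup_mem hne hbd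
  have hle : ∀ E : IntermediateField K L, FiniteDimensional K E → E ≤ E₀ := by
    intro E hE
    have h1 : FiniteDimensional K (E ⊔ E₀ : IntermediateField K L) :=
      IntermediateField.finiteDimensional_sup E E₀
    have h2 : Module.finrank K (E ⊔ E₀ : IntermediateField K L) ≤ Module.finrank K E₀ := by
      rw [hmax]
      exact le_csSup hbd ⟨_, h1, rfl⟩
    have h3 : E₀ = E ⊔ E₀ := IntermediateField.eq_of_le_of_finrank_le le_sup_right h2
    rw [h3]
    exact le_sup_left
  have hfin : Finite (IntermediateField K E₀) :=
    Field.finite_intermediateField_of_exists_primitive_element K E₀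
      (Field.exists_primitive_element K E₀)
  refine (Set.finite_range fun E' : IntermediateField K E₀ => IntermediateField.lift E').subset ?_
  intro E hE
  exact ⟨IntermediateField.restrict (hle E hE), IntermediateField.lift_restrict (hle E hE)⟩

end Pool.Agent.LibZ64
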