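import Pool.Agent.LibHP.S2
import Pool.Agent.LibK3G.HL1

/-!
THEOREM Z, transport of unramifiedness; constants of a field with the Hilbert property.
-/

set_option autoImplicit false

open AlgebraicGeometry CategoryTheory
open Pool.Agent.LibHP Pool.Agent.LibK3G

namespace Pool.Agent.LibZ64

/-- Integrality only depends on the image of the ring. -/
theorem isIntegralElem_of_range {A B L : Type} [CommRing A] [CommRing B] [CommRing L]
    (i : A →+* L) (j : B →+* L) (h : Set.range i ⊆ Set.range j) (b : L)
    (hb : i.IsIntegralElem b) : j.IsIntegralElem b := by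
  obtain ⟨P, hP, hPb⟩ := hb
  have h2 : P.map i ∈ Polynomial.lifts j := by
    rw [Polynomial.lifts_iff_coeff_lifts]
    intro n
    rw [Polynomial.coeff_map]
    obtain ⟨c, hc⟩ := h ⟨P.coeff n, rfl⟩
    exact ⟨c, hc⟩
  obtain ⟨Q, hQ, -, hQm⟩ := Polynomial.lifts_and_natDegree_eq_and_monic h2 (hP.map i)
  refine ⟨Q, hQm, ?_⟩
  rw [← Polynomial.eval_map, hQ, Polynomial.eval_map]
  exact hPb

/-- Being unramified only depends on the image of the local ring in the extension. -/
theorem presAt_of_range {X Y : Scheme.{0}} [IsIntegral X] [IsIntegral Y] {L : Type} [Field L]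
    (i : X.functionField →+* L) (j : Y.functionField →+* L) (x : X) (y : Y)
    (h : Set.range (stalkTo i x) = Set.range (stalkTo j y)) (hP : PresAt i x) : PresAt j y := by
  intro D hD b hb
  refine isIntegralElem_of_range _ _ h.le _ (hP D ?_ b (isIntegralElem_of_range _ _ h.ge b hb))
  intro z
  obtain ⟨w, hw⟩ := h.le ⟨z, rfl⟩
  obtain ⟨w', hw'⟩ := hD w
  obtain ⟨z', hz'⟩ := h.ge ⟨w', rfl⟩
  exact ⟨z', by rw [← hw, hw', hz']⟩

/-- Transport along an isomorphism of the extension. -/
theorem presAt_equiv {X : Scheme.{0}} [IsIntegral X] {L M : Type} [Field L] [Field M]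
    (j : X.functionField →+* L) (e : L ≃+* M) (x : X) (hP : PresAt j x) :
    PresAt ((e : L →+* M).comp j) x := by
  have hst : ∀ z, stalkTo ((e : L →+* M).comp j) x z = e (stalkTo j x z) := fun z => rfl
  have hcomp : stalkTo ((e : L →+* M).comp j) x = (e : L →+* M).comp (stalkTo j x) :=
    RingHom.ext hst
  have hints : ∀ b : L, (stalkTo ((e : L →+* M).comp j) x).IsIntegralElem (e b) ↔
      (stalkTo j x).IsIntegralElem b := by
    intro b
    rw [hcomp]
    constructor
    · rintro ⟨P, hP, h⟩
      refine ⟨P, hP, e.injective ?_⟩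
      rw [map_zero, ← h]
      have := Polynomial.hom_eval₂ P (stalkTo j x) (e : L →+* M) b
      exact this
    · rintro ⟨P, hP, h⟩
      refine ⟨P, hP, ?_⟩
      have := Polynomial.hom_eval₂ P (stalkTo j x) (e : L →+* M) b
      rw [h] at this
      exact this.symm.trans (map_zero _)
  intro D hD b hb
  -- the derivation of `L`
  let D' : Derivation ℤ L L := Derivation.mk'
    ((e.symm.toAddEquiv.toAddMonoidHom.comp
      ((D : M →ₗ[ℤ] M).toAddMonoidHom.comp e.toAddEquiv.toAddMonoidHom)).toIntLinearMap)
    (by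
      intro a b
      change e.symm (D (e (a * b))) = a • e.symm (D (e b)) + b • e.symm (D (e a))
      rw [map_mul, D.leibniz, map_add, smul_eq_mul, smul_eq_mul, map_mul, map_mul,
        e.symm_apply_apply, e.symm_apply_apply, smul_eq_mul, smul_eq_mul])
  have hD' : ∀ a, D' a = e.symm (D (e a)) := fun a => rfl
  have h1 := hP D' (by
    intro z
    obtain ⟨z', hz'⟩ := hD z
    refine ⟨z', ?_⟩
    rw [hD', ← hst, hz', hst, e.symm_apply_apply]) (e.symm b) (by
      rw [← hints, e.apply_symm_apply]
      exact hb)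
  rw [hD', e.apply_symm_apply, ← hints, e.apply_symm_apply] at h1
  exact h1

/-- `k` is algebraically closed in a field with the Hilbert property over `k`. -/
theorem const_of_hil {k κ : Type} [Field k] [Field κ] [Algebra k κ] (h : Hil k κ) (α : κ)
    (hα : IsAlgebraic k α) : ∃ c : k, algebraMap k κ c = α := by
  have hint : IsIntegral k α := hα.isIntegral
  let C : Subalgebra k κ := Algebra.adjoin k {α}
  have hft : Algebra.FiniteType k C :=
    Subalgebra.fg_iff_finiteType C |>.1 ⟨{α}, by simp [C]⟩
  obtain ⟨χ, -⟩ := h C C.val 0 (fun i => i.elim0) (fun i => i.elim0) (fun i => i.elim0)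
  have hαC : α ∈ C := Algebra.self_mem_adjoin_singleton k α
  have hroot : (minpoly k α).IsRoot (χ ⟨α, hαC⟩) := by
    rw [Polynomial.IsRoot, ← Polynomial.coe_aeval_eq_eval, Polynomial.aeval_algHom_apply]
    have h1 : Polynomial.aeval (⟨α, hαC⟩ : C) (minpoly k α) = 0 := by
      apply Subtype.ext
      have h2 := Polynomial.aeval_algHom_apply C.val (⟨α, hαC⟩ : C) (minpoly k α)
      change Polynomial.aeval α (minpoly k α) = _ at h2
      rw [minpoly.aeval] at h2
      exact h2.symm
    rw [h1, map_zero]
  have hdeg := Polynomial.degree_eq_one_of_irreducible_of_root (minpoly.irreducible hint) hroot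
  obtain ⟨c, hc⟩ := minpoly.mem_range_of_degree_eq_one k α hdeg
  exact ⟨c, hc⟩

end Pool.Agent.LibZ64
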