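import Pool.Agent.LibK3G.HL3
import Pool.Agent.LibZ64.A2

/-!
THEOREM Z. If the Hilbert property of `X` fails, then there are finitely many nontrivial finite
extensions of the function field of `X` such that every homomorphism from the function field to a
field with the Hilbert property factors through one of them.
-/

set_option autoImplicit false

open Pool.Agent.LibGMM Pool.Agent.LibHP Pool.Agent.LibK3 Pool.Agent.LibK3G
open AlgebraicGeometry CategoryTheory

namespace Pool.Agent.LibZ64

/-- Extension of an injective homomorphism to the fields of fractions of an integral extension. -/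
theorem exists_extension {A B K M L : Type} [CommRing A] [IsDomain A] [CommRing B] [IsDomain B]
    [Field K] [Algebra A K] [IsFractionRing A K] [Field M] [Algebra B M] [IsFractionRing B M]
    [Field L] (α : A →+* B) (hα : α.Finite) (j : K →+* M)
    (hj : ∀ a, j (algebraMap A K a) = algebraMap B M (α a)) (φ : K →+* L) (ψ : B →+* L)
    (h : ∀ a, ψ (α a) = φ (algebraMap A K a)) : ∃ Ψ : M →+* L, Ψ.comp j = φ := by
  let _ : Algebra A B := α.toAlgebra
  have hint : Algebra.IsIntegral A B := ⟨hα.to_isIntegral⟩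
  have hφA : Function.Injective fun a : A => φ (algebraMap A K a) :=
    φ.injective.comp (IsFractionRing.injective A K)
  have hker : (RingHom.ker ψ).comap (algebraMap A B) = ⊥ := by
    rw [eq_bot_iff]
    intro a ha
    have h1 : ψ (α a) = 0 := ha
    rw [h] at h1
    have h2 : a = 0 := hφA (by simpa using h1)
    exact h2
  have hψ : Function.Injective ψ := by
    rw [RingHom.injective_iff_ker_eq_bot]
    have hprime : (RingHom.ker ψ).IsPrime := RingHom.ker_isPrime ψ
    exact Ideal.eq_bot_of_comap_eq_bot hker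
  refine ⟨IsFractionRing.lift hψ, ?_⟩
  refine IsFractionRing.ringHom_ext (A := A) ?_
  intro a
  change IsFractionRing.lift hψ (j (algebraMap A K a)) = φ (algebraMap A K a)
  rw [hj, IsFractionRing.lift_algebraMap, h]

theorem toSec_germ {k : Type} [Field k] {X : Scheme.{0}} (f : X ⟶ Spec (CommRingCat.of k))
    (W : X.Opens) (x : X) (hx : x ∈ W) (c : k) :
    X.presheaf.germ W x hx (toSec f W c) = toStalk f x c := by
  have h3 : f.appLE ⊤ W le_top ≫ X.presheaf.germ W x hx =
      f.appTop ≫ X.presheaf.germ ⊤ x trivial := by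
    rw [Scheme.Hom.appLE, Category.assoc, TopCat.Presheaf.germ_res]
    rfl
  exact congrArg (fun q => q ((Scheme.ΓSpecIso (CommRingCat.of k)).inv c)) h3

theorem toSec_finiteType {k : Type} [Field k] {X : Scheme.{0}} (f : X ⟶ Spec (CommRingCat.of k))
    [Smooth f] (W : X.Opens) (hW : IsAffineOpen W) : (toSec f W).FiniteType := by
  refine RingHom.FiniteType.comp (g := (f.appLE ⊤ W le_top).hom)
    (f.finiteType_appLE (isAffineOpen_top _) hW le_top) ?_
  exact RingHom.FiniteType.of_surjective _
    ((ConcreteCategory.isIso_iff_bijective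
      (Scheme.ΓSpecIso (CommRingCat.of k)).inv).mp inferInstance).2

theorem exists_embedding_of_not_hilbertProp {k : Type} [Field k] [CharZero k] {X : Scheme.{0}}
    [IsIntegral X] (f : X ⟶ Spec (CommRingCat.of k)) [Smooth f] (h : ¬ HilbertProp f) :
    ∃ (n : ℕ) (M : Fin n → Type) (_ : ∀ i, Field (M i)) (j : ∀ i, X.functionField →+* M i),
      (∀ i, (j i).Finite ∧ ¬ Function.Surjective (j i)) ∧
      ∀ (L : Type) [Field L] [Algebra k L], Hil k L → ∀ φ : X.functionField →+* L,
        (∀ c : k, φ (toStalk f (genericPoint X) c) = algebraMap k L c) →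
        ∃ i, ∃ ψ : M i →+* L, ψ.comp (j i) = φ := by
  obtain ⟨n, Y, π, hY, hfin, hsurj, W, hW, hgW, hf, hs, hn, hχ⟩ := exists_good_open f h
  refine ⟨n, fun i => (Y i).functionField, fun i => inferInstance, fun i => kap (π i),
    fun i => ⟨hf i, hs i⟩, ?_⟩
  intro L _ _ hH φ hφ
  have hneW : Nonempty W := ⟨⟨_, hgW⟩⟩
  let _ : Algebra k Γ(X, W) := (toSec f W).toAlgebra
  have hft : Algebra.FiniteType k Γ(X, W) := toSec_finiteType f W hW
  have hfr := functionField_isFractionRing_of_isAffineOpen X W hW
  let φ0 : Γ(X, W) →+* L := φ.comp (algebraMap Γ(X, W) X.functionField)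
  let φA : Γ(X, W) →ₐ[k] L :=
    { φ0 with
      commutes' := by
        intro c
        change φ (X.presheaf.germ W (genericPoint X) hgW (toSec f W c)) = _
        rw [toSec_germ, hφ] }
  have hfc : ∀ i, ((π i).app W).hom.Finite := fun i => IsFinite.finite_app (π i) W hW
  obtain ⟨i, ψ, hψ⟩ := exists_lift_hom_of_hil hH Γ(X, W) φA (fun i => Γ(Y i, π i ⁻¹ᵁ W))
    (fun i => ((π i).app W).hom) hfc
    (fun χ => hχ (χ : Γ(X, W) →+* k) (fun c => χ.commutes c))
  refine ⟨i, ?_⟩
  have h2 : genericPoint (Y i) ∈ π i ⁻¹ᵁ W := genericPoint_mem_preimage (π i) W hgW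
  have hneY : Nonempty (π i ⁻¹ᵁ W : (Y i).Opens) := ⟨⟨_, h2⟩⟩
  have hfrY := functionField_isFractionRing_of_isAffineOpen (Y i) (π i ⁻¹ᵁ W) (hW.preimage (π i))
  refine exists_extension (A := Γ(X, W)) (B := Γ(Y i, π i ⁻¹ᵁ W)) ((π i).app W).hom (hfc i)
    (kap (π i)) (fun a => kap_germ (π i) W hgW h2 a) φ ψ ?_
  intro a
  exact congrArg (fun q : Γ(X, W) →+* L => q a) hψ

end Pool.Agent.LibZ64
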