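import Mathlib

/-!
The coset block of the descent of the Hilbert property along dominant maps: a group of automorphisms
of a field which is covered by finitely many extensions has an element whose extension is unramified
at all places with infinitely many translates.
-/

set_option autoImplicit false

namespace Pool.Agent.LibZ64

open scoped Pointwise

/-- The automorphisms of `K` which lift to the extension `j : K → M`. -/
def stabExt {K M : Type} [Field K] [Field M] (j : K →+* M) : Subgroup (K ≃+* K) where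
  carrier := {u | ∃ c : M ≃+* M, (c : M →+* M).comp j = j.comp (u : K →+* K)}
  one_mem' := ⟨RingEquiv.refl M, by ext x; rfl⟩
  mul_mem' := by
    rintro a b ⟨c, hc⟩ ⟨d, hd⟩
    refine ⟨d.trans c, ?_⟩
    ext x
    have h1 : ∀ x, c (j x) = j (a x) := fun x => congrArg (fun f => f x) hc
    have h2 : ∀ x, d (j x) = j (b x) := fun x => congrArg (fun f => f x) hd
    change c (d (j x)) = j (a (b x))
    rw [h2, h1]
  inv_mem' := by
    rintro a ⟨c, hc⟩
    refine ⟨c.symm, ?_⟩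
    ext x
    have h1 : ∀ x, c (j x) = j (a x) := fun x => congrArg (fun f => f x) hc
    change c.symm (j x) = j (a⁻¹ x)
    rw [RingEquiv.symm_apply_eq, h1]
    congr 1
    change x = (a * a⁻¹) x
    rw [mul_inv_cancel]
    rfl

theorem coset_block {K L : Type} [Field K] [Field L] (G : Subgroup (K ≃+* K)) (φ : K →+* L)
    {ι : Type} [Finite ι] (M : ι → Type) [∀ i, Field (M i)] (j : ∀ i, K →+* M i)
    (EE : Set (Subfield L)) (hE : EE.Finite)
    (hcov : ∀ σ ∈ G, ∃ i, ∃ ψ : M i →+* L,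
      ψ.comp (j i) = φ.comp (σ : K →+* K) ∧ ψ.fieldRange ∈ EE)
    {P : Type} (Tr : (K ≃+* K) → P → P → Prop) (Un : ∀ i, (K →+* M i) → P → Prop)
    (hU1 : ∀ i (c : M i ≃+* M i) (j' : K →+* M i) (y : P),
      Un i j' y → Un i ((c : M i →+* M i).comp j') y)
    (hU2 : ∀ i (j' : K →+* M i), ∀ τ ∈ G, ∀ x y : P, Tr τ x y →
      Un i (j'.comp (τ.symm : K →+* K)) y → Un i j' x)
    (hfin : ∀ i, ∀ t ∈ G, {y | ¬ Un i ((j i).comp (t : K →+* K)) y}.Finite)
    (N : Set P) (hN : ∀ x ∈ N, {y | ∃ τ ∈ G, Tr τ x y}.Infinite) :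
    ∃ i, ∃ σ ∈ G, ∃ ψ : M i →+* L, ψ.comp (j i) = φ.comp (σ : K →+* K) ∧
      ∀ x ∈ N, Un i ((j i).comp (σ.symm : K →+* K)) x := by
  classical
  -- the index set of the cosets
  have hfinE : Finite EE := hE
  let S : ι × EE → Set G := fun q => {σ : G | ∃ ψ : M q.1 →+* L,
    ψ.comp (j q.1) = φ.comp ((σ : K ≃+* K) : K →+* K) ∧ ψ.fieldRange = q.2}
  let H : ι × EE → Subgroup G := fun q => (stabExt (j q.1)).subgroupOf G
  -- two elements of `S q` differ by an element of `H q`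
  have hS : ∀ q, ∀ σ τ : G, σ ∈ S q → τ ∈ S q → τ⁻¹ * σ ∈ H q := by
    rintro q σ τ ⟨ψ, h1, h2⟩ ⟨ψ', h1', h2'⟩
    have hinj' : Function.Injective ψ' := ψ'.injective
    have hmem : ∀ m : M q.1, ∃ m' : M q.1, ψ' m' = ψ m := by
      intro m
      have : ψ m ∈ ψ'.fieldRange := by
        rw [h2', ← h2]
        exact ⟨m, rfl⟩
      exact this
    have hmem' : ∀ m : M q.1, ∃ m' : M q.1, ψ m' = ψ' m := by
      intro m
      have : ψ' m ∈ ψ.fieldRange := by
        rw [h2, ← h2']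
        exact ⟨m, rfl⟩
      exact this
    choose f hf using hmem
    choose g hg using hmem'
    let c : M q.1 ≃+* M q.1 :=
      { toFun := f
        invFun := g
        left_inv := fun m => ψ.injective (by rw [hg, hf])
        right_inv := fun m => ψ'.injective (by rw [hf, hg])
        map_mul' := fun a b => ψ'.injective (by rw [hf, map_mul, map_mul, hf, hf])
        map_add' := fun a b => ψ'.injective (by rw [hf, map_add, map_add, hf, hf]) }
    change ((τ⁻¹ * σ : G) : K ≃+* K) ∈ stabExt (j q.1)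
    refine ⟨c, ?_⟩
    ext x
    apply ψ'.injective
    have e1 : ∀ x, ψ (j q.1 x) = φ ((σ : K ≃+* K) x) := fun x => congrArg (fun f => f x) h1
    have e2 : ∀ x, ψ' (j q.1 x) = φ ((τ : K ≃+* K) x) := fun x => congrArg (fun f => f x) h1'
    change ψ' (c (j q.1 x)) = ψ' (j q.1 (((τ⁻¹ * σ : G) : K ≃+* K) x))
    have e3 : ψ' (c (j q.1 x)) = ψ (j q.1 x) := hf _
    rw [e3, e1, e2]
    congr 1
    change (σ : K ≃+* K) x = ((τ : K ≃+* K) * ((τ⁻¹ * σ : G) : K ≃+* K)) x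
    have e4 : (τ : K ≃+* K) * ((τ⁻¹ * σ : G) : K ≃+* K) = (σ : K ≃+* K) := by
      rw [← Subgroup.coe_mul, mul_inv_cancel_left]
    rw [e4]
  -- the nonempty ones cover the group
  let I : Finset (ι × EE) := by
    have : Fintype (ι × EE) := Fintype.ofFinite _
    exact Finset.univ.filter fun q => (S q).Nonempty
  have hI : ∀ q, q ∈ I ↔ (S q).Nonempty := by
    intro q
    simp [I]
  let t : ι × EE → G := fun q => if h : (S q).Nonempty then h.choose else 1
  have ht : ∀ q ∈ I, t q ∈ S q := by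
    intro q hq
    have h := (hI q).1 hq
    simp only [t, h, dite_true]
    exact h.choose_spec
  have hcovers : ⋃ q ∈ I, t q • ((H q : Subgroup G) : Set G) = Set.univ := by
    apply Set.eq_univ_of_forall
    intro σ
    obtain ⟨i, ψ, h1, h2⟩ := hcov σ σ.2
    have hσ : σ ∈ S (i, ⟨ψ.fieldRange, h2⟩) := ⟨ψ, h1, rfl⟩
    rw [Set.mem_iUnion₂]
    refine ⟨(i, ⟨ψ.fieldRange, h2⟩), (hI _).2 ⟨σ, hσ⟩, ?_⟩
    rw [Set.mem_smul_set_iff_inv_smul_mem]
    exact hS _ _ _ hσ (ht _ ((hI _).2 ⟨σ, hσ⟩))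
  obtain ⟨q, hq, hidx⟩ := Subgroup.exists_finiteIndex_of_leftCoset_cover hcovers
  obtain ⟨σ, hσ⟩ := (hI q).1 hq
  obtain ⟨ψ, h1, h2⟩ := hσ
  refine ⟨q.1, σ, σ.2, ψ, h1, ?_⟩
  intro x hx
  by_contra hun
  -- representatives of the right cosets of `H q`
  have hfq : Finite (G ⧸ H q) := Subgroup.finite_quotient_of_finiteIndex
  apply hN x hx
  let r : G ⧸ H q → G := fun a => (Quotient.out a)⁻¹
  have hcos : ∀ u : G, ∃ a : G ⧸ H q, ∃ h ∈ H q, u = h * r a := by
    intro u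
    refine ⟨((u⁻¹ : G) : G ⧸ H q), u * (r ((u⁻¹ : G) : G ⧸ H q))⁻¹, ?_, by group⟩
    have h3 : (Quotient.out ((u⁻¹ : G) : G ⧸ H q) : G)⁻¹ * u⁻¹ ∈ H q := by
      rw [← QuotientGroup.eq]
      exact Quotient.out_eq _
    have h4 := (H q).inv_mem h3
    have h5 : ((Quotient.out ((u⁻¹ : G) : G ⧸ H q) : G)⁻¹ * u⁻¹)⁻¹ =
        u * (r ((u⁻¹ : G) : G ⧸ H q))⁻¹ := by
      simp only [r, mul_inv_rev, inv_inv]
    rw [h5] at h4
    exact h4
  apply Set.Finite.subset (s := ⋃ a : G ⧸ H q,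
    {y | ¬ Un q.1 ((j q.1).comp (((r a : G) : K ≃+* K) : K →+* K)) y})
    (Set.finite_iUnion fun a => hfin q.1 (r a) (r a).2)
  rintro y ⟨τ, hτ, hxy⟩
  rw [Set.mem_iUnion]
  obtain ⟨a, h, hh, hu⟩ := hcos (σ⁻¹ * (⟨τ, hτ⟩ : G)⁻¹)
  refine ⟨a, ?_⟩
  intro hy
  apply hun
  apply hU2 q.1 _ τ hτ x y hxy
  obtain ⟨c, hc⟩ : ((h : G) : K ≃+* K) ∈ stabExt (j q.1) := hh
  have e5 : ((j q.1).comp ((σ : K ≃+* K).symm : K →+* K)).comp (τ.symm : K →+* K) =
      (c : M q.1 →+* M q.1).comp ((j q.1).comp (((r a : G) : K ≃+* K) : K →+* K)) := by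
    have e6 : ∀ z, c (j q.1 z) = j q.1 (((h : G) : K ≃+* K) z) := fun z => congrArg (fun f => f z) hc
    ext z
    change j q.1 ((σ : K ≃+* K).symm (τ.symm z)) = c (j q.1 (((r a : G) : K ≃+* K) z))
    rw [e6]
    congr 1
    have e7 : (((σ⁻¹ * (⟨τ, hτ⟩ : G)⁻¹ : G)) : K ≃+* K) = ((h * r a : G) : K ≃+* K) := by
      rw [hu]
    have e8 := congrArg (fun f : K ≃+* K => f z) e7
    exact e8
  rw [e5]
  exact hU1 q.1 c _ y hy

end Pool.Agent.LibZ64
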