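import Pool.Agent.LibZ64.A1
import Pool.Agent.LibZ64.A3
import Pool.Agent.LibZ64.CosetBlock
import Pool.Agent.LibK3M.S6
import Pool.Agent.LibK3M.R1
import Pool.Agent.LibK3G.MN1
import Pool.Agent.LibHPF.P10

/-!
THEOREM Z: descent of the Hilbert property along dominant rational maps.
-/

set_option autoImplicit false

open Pool.Agent.LibGMM Pool.Agent.LibHP Pool.Agent.LibK3 Pool.Agent.LibK3G Pool.Agent.LibK3M
open AlgebraicGeometry CategoryTheory

namespace Pool.Agent.LibZ64

/-- The automorphisms of the function field over `k`. -/
def fixG {k : Type} [Field k] {X : Scheme.{0}} [IsIntegral X] (f : X ⟶ Spec (CommRingCat.of k)) :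
    Subgroup (X.functionField ≃+* X.functionField) where
  carrier := {τ | ∀ c : k, τ (toStalk f (genericPoint X) c) = toStalk f (genericPoint X) c}
  one_mem' := fun _ => rfl
  mul_mem' := by
    intro a b ha hb c
    change a (b _) = _
    rw [hb, ha]
  inv_mem' := by
    intro a ha c
    change a.symm _ = _
    rw [RingEquiv.symm_apply_eq, ha]

theorem range_stalkTo {X : Scheme.{0}} [IsIntegral X] {L : Type} [Field L]
    (j : X.functionField →+* L) (x : X) : Set.range (stalkTo j x) = j '' stk X x := by
  rw [stk, ← Set.range_comp]
  rfl

theorem finite_range {K M L : Type} [Field K] [Field M] [Field L] [Algebra K L] (j : K →+* M)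
    (hj : j.Finite) (σ : K ≃+* K) (ψ : M →+* L)
    (h : ψ.comp j = (algebraMap K L).comp (σ : K →+* K)) :
    ψ.fieldRange ∈ (fun E : IntermediateField K L => E.toSubfield) ''
      {E | FiniteDimensional K E} := by
  have hx : ∀ a, ψ (j (σ.symm a)) = algebraMap K L a := by
    intro a
    have := congrArg (fun q : K →+* L => q (σ.symm a)) h
    change ψ (j (σ.symm a)) = algebraMap K L (σ (σ.symm a)) at this
    rwa [σ.apply_symm_apply] at this
  let E : IntermediateField K L := ψ.fieldRange.toIntermediateField fun a => ⟨j (σ.symm a), hx a⟩
  refine ⟨E, ?_, ?_⟩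
  · let q : M →+* E := ψ.codRestrict E fun m => ⟨m, rfl⟩
    have hq : Function.Surjective q := by
      rintro ⟨y, m, rfl⟩
      exact ⟨m, rfl⟩
    have h1 : (q.comp (j.comp (σ.symm : K →+* K))).Finite :=
      (RingHom.Finite.of_surjective _ hq).comp
        (hj.comp (RingHom.Finite.of_surjective _ σ.symm.surjective))
    have h2 : q.comp (j.comp (σ.symm : K →+* K)) = algebraMap K E :=
      RingHom.ext fun a => Subtype.ext (hx a)
    rw [h2] at h1
    exact (RingHom.finite_algebraMap).1 h1
  · rfl

/-- **THEOREM Z.** -/
theorem main_dominated {k : Type} [Field k] [CharZero k] {X Z : Scheme.{0}} [IsIntegral X]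
    [IsIntegral Z] (f : X ⟶ Spec (CommRingCat.of k)) [Smooth f] [IsSeparated f] [QuasiCompact f]
    (z : Z ⟶ Spec (CommRingCat.of k)) [LocallyOfFiniteType z]
    (hn : ∀ p : Z, IsIntegrallyClosed (Z.presheaf.stalk p)) (hZ : HilbertProp z)
    (φ : X.functionField →+* Z.functionField)
    (hφ : ∀ c : k, φ (toStalk f (genericPoint X) c) = toStalk z (genericPoint Z) c)
    (U : X.Opens) [Nonempty U]
    (hU : GeomSimplyConnected (U.ι ≫ f) ∨ MapGenerates U (S1a_g φ))
    (horb : ∀ x ∈ U, ringKrullDim (X.presheaf.stalk x) = 1 →
      {y : X | ringKrullDim (X.presheaf.stalk y) = 1 ∧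
        ∃ τ : X.functionField ≃+* X.functionField,
          (∀ c : k, τ (toStalk f (genericPoint X) c) = toStalk f (genericPoint X) c) ∧
            τ '' stk X x = stk X y}.Infinite ∨
      ∀ (M : Type) (_ : Field M) (j : X.functionField →+* M) (ψ : M →+* Z.functionField),
        j.Finite → ψ.comp j = φ → PresAt j x) : HilbertProp f := by
  by_contra hnot
  obtain ⟨n, M, hM, j, hj, hemb⟩ := exists_embedding_of_not_hilbertProp f hnot
  let _ : Algebra k Z.functionField := (toStalk z (genericPoint Z)).toAlgebra
  let _ : Algebra k X.functionField := (toStalk f (genericPoint X)).toAlgebra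
  let _ : Algebra X.functionField Z.functionField := φ.toAlgebra
  have htow : IsScalarTower k X.functionField Z.functionField :=
    IsScalarTower.of_algebraMap_eq fun c => (hφ c).symm
  have hks : ∀ a : k, algebraMap k Z.functionField a = toStalk z (genericPoint Z) a := fun _ => rfl
  have hess0 : Algebra.EssFiniteType k Z.functionField := essFiniteType_functionField z hks
  have hess : Algebra.EssFiniteType X.functionField Z.functionField :=
    Algebra.EssFiniteType.of_comp k X.functionField Z.functionField
  have hcz : CharZero X.functionField :=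
    charZero_of_injective_algebraMap (algebraMap k X.functionField).injective
  have hH : Hil k Z.functionField := hil_of_hilbertProp z hks hn hZ
  have hjt : ∀ (i : Fin n) (t : X.functionField ≃+* X.functionField),
      ((j i).comp (t : X.functionField →+* X.functionField)).Finite := fun i t =>
    (hj i).1.comp (RingHom.Finite.of_surjective _ t.surjective)
  obtain ⟨i, σ, hσ, ψ, hψ, hun⟩ := coset_block (fixG f) φ M j
    ((fun E : IntermediateField X.functionField Z.functionField => E.toSubfield) ''
      {E | FiniteDimensional X.functionField E})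
    (Set.Finite.image _ finite_intermediateFields)
    (by
      intro σ hσ
      obtain ⟨i, ψ, hψ⟩ := hemb Z.functionField hH
        (φ.comp (σ : X.functionField →+* X.functionField)) (by
          intro c
          change φ (σ (toStalk f (genericPoint X) c)) = _
          rw [hσ c, hφ c]
          rfl)
      exact ⟨i, ψ, hψ, finite_range (j i) (hj i).1 σ ψ hψ⟩)
    (P := X)
    (fun τ x y => ringKrullDim (X.presheaf.stalk y) = 1 ∧ τ '' stk X x = stk X y)
    (fun i j' x => ringKrullDim (X.presheaf.stalk x) = 1 → PresAt j' x)
    (by
      intro i c j' y h hy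
      exact presAt_equiv j' c y (h hy))
    (by
      rintro i j' τ - x y ⟨hy, hxy⟩ h hx
      refine presAt_of_range _ _ y x ?_ (h hy)
      rw [range_stalkTo, range_stalkTo, ← hxy, Set.image_image]
      apply Set.image_congr
      intro a _
      change j' (τ.symm (τ a)) = j' a
      rw [τ.symm_apply_apply])
    (by
      intro i t _
      let _ : Algebra X.functionField (M i) :=
        ((j i).comp (t : X.functionField →+* X.functionField)).toAlgebra
      have hfd : FiniteDimensional X.functionField (M i) :=
        (RingHom.finite_algebraMap).1 (hjt i t)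
      refine (finite_not_presAt f (M i)).subset ?_
      intro y hy
      have hy' : ¬ (ringKrullDim (X.presheaf.stalk y) = 1 →
        PresAt ((j i).comp (t : X.functionField →+* X.functionField)) y) := hy
      rw [Classical.not_imp] at hy'
      exact hy')
    {x | ringKrullDim (X.presheaf.stalk x) = 1 ∧
      {y : X | ∃ τ ∈ fixG f, ringKrullDim (X.presheaf.stalk y) = 1 ∧
        τ '' stk X x = stk X y}.Infinite}
    (by
      rintro x ⟨hx, hinf⟩
      exact hinf)
  -- the extension `j i ∘ σ⁻¹` is unramified over `U`
  set j' : X.functionField →+* M i :=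
    (j i).comp (σ.symm : X.functionField →+* X.functionField) with hj'
  have hψ' : ψ.comp j' = φ := by
    ext a
    have := congrArg (fun q : X.functionField →+* Z.functionField => q (σ.symm a)) hψ
    change ψ (j i (σ.symm a)) = φ (σ (σ.symm a)) at this
    rw [σ.apply_symm_apply] at this
    exact this
  have hpres : ∀ x ∈ U, ringKrullDim (X.presheaf.stalk x) = 1 → PresAt j' x := by
    intro x hxU hx
    rcases horb x hxU hx with h | h
    · refine hun x ⟨hx, h.mono ?_⟩ hx
      rintro y ⟨hy, τ, hτ, hxy⟩
      exact ⟨τ, hτ, hy, hxy⟩
    · exact h (M i) inferInstance j' ψ (hjt i σ.symm) hψ'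
  have hj'fin : j'.Finite := hjt i σ.symm
  have hsurj : Function.Surjective j' := by
    rcases hU with hU | hU
    · by_contra hns
      let _ : Algebra X.functionField (M i) := j'.toAlgebra
      have hfd : FiniteDimensional X.functionField (M i) := (RingHom.finite_algebraMap).1 hj'fin
      have h2 : 2 ≤ Module.finrank X.functionField (M i) := by
        by_contra hlt
        have hpos : 0 < Module.finrank X.functionField (M i) := Module.finrank_pos
        have h1 : Module.finrank X.functionField (M i) = 1 := by omega
        apply hns
        intro m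
        obtain ⟨c, hc⟩ := (finrank_eq_one_iff_of_nonzero' (1 : M i) one_ne_zero).1 h1 m
        refine ⟨c, ?_⟩
        rw [← hc, Algebra.smul_def, mul_one]
        rfl
      obtain ⟨α, ⟨h, hh0, hh⟩, hα⟩ := exists_const_open f U hU (M i) h2 hpres
      obtain ⟨c, hc⟩ := const_of_hil hH (ψ α) ⟨h, hh0, by
        have h3 := Polynomial.hom_eval₂ h
          ((algebraMap X.functionField (M i)).comp (toStalk f (genericPoint X))) ψ α
        rw [hh, map_zero] at h3
        have h4 : ψ.comp ((algebraMap X.functionField (M i)).comp (toStalk f (genericPoint X))) =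
            algebraMap k Z.functionField := by
          ext c
          change ψ (j' (toStalk f (genericPoint X) c)) = _
          have h5 := congrArg (fun q : X.functionField →+* Z.functionField =>
            q (toStalk f (genericPoint X) c)) hψ'
          exact h5.trans (hφ c)
        rw [h4] at h3
        exact h3.symm⟩
      apply hα c
      apply ψ.injective
      have h5 := congrArg (fun q : X.functionField →+* Z.functionField =>
        q (toStalk f (genericPoint X) c)) hψ'
      exact (h5.trans (hφ c)).trans hc
    · exact surjective_of_factor f U (M i) Z.functionField j' hj'fin hpres ψ (by rw [hψ']; exact hU)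
  apply (hj i).2
  intro m
  obtain ⟨a, ha⟩ := hsurj m
  exact ⟨σ.symm a, ha⟩

end Pool.Agent.LibZ64
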