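import Pool.Agent.LibZ64.W7
import Pool.Agent.LibK3G.FG3
import Pool.Agent.LibK3G.CV6
import Pool.Agent.LibHP.H9

/-!
The Hilbert property of normal schemes whose function field is purely transcendental over a
finitely generated field `k` of characteristic zero.
-/

set_option autoImplicit false

open Polynomial
open Pool.Agent.LibGMM Pool.Agent.LibHP Pool.Agent.LibK3 Pool.Agent.LibK3G
open AlgebraicGeometry CategoryTheory

namespace Pool.Agent.LibZ64

theorem toSec_finiteType' {k : Type} [Field k] {X : Scheme.{0}} (f : X ⟶ Spec (CommRingCat.of k))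
    [LocallyOfFiniteType f] (W : X.Opens) (hW : IsAffineOpen W) : (toSec f W).FiniteType := by
  refine RingHom.FiniteType.comp (g := (f.appLE ⊤ W le_top).hom)
    (f.finiteType_appLE (isAffineOpen_top _) hW le_top) ?_
  exact RingHom.FiniteType.of_surjective _
    ((ConcreteCategory.isIso_iff_bijective
      (Scheme.ΓSpecIso (CommRingCat.of k)).inv).mp inferInstance).2

/-- A normal scheme whose function field has the Hilbert property over `k` has the Hilbert
property. -/
theorem hilbertProp_of_hil {k : Type} [Field k] [CharZero k] {Z : Scheme.{0}} [IsIntegral Z]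
    (z : Z ⟶ Spec (CommRingCat.of k)) [LocallyOfFiniteType z] [Algebra k Z.functionField]
    (hk : ∀ a : k, algebraMap k Z.functionField a = toStalk z (genericPoint Z) a)
    (hn : ∀ p : Z, IsIntegrallyClosed (Z.presheaf.stalk p)) (hH : Hil k Z.functionField) :
    HilbertProp z := by
  by_contra h
  unfold HilbertProp at h
  push Not at h
  obtain ⟨m, Y, π, hY, hfin, hsurj, hiso, hnd⟩ := h
  rw [dense_iff_inter_open] at hnd
  push Not at hnd
  obtain ⟨U, hUo, ⟨x, hxU⟩, hUS⟩ := hnd
  obtain ⟨W, hW', hxW, hWU⟩ := Z.isBasis_affineOpens.exists_subset_of_mem_open hxU hUo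
  obtain ⟨W, hW, rfl⟩ := hW'
  have hgW : genericPoint Z ∈ W := genericPoint_mem W x hxW
  have hneW : Nonempty W := ⟨⟨_, hgW⟩⟩
  let _ : Algebra k Γ(Z, W) := (toSec z W).toAlgebra
  have hft : Algebra.FiniteType k Γ(Z, W) := toSec_finiteType' z W hW
  have hfr := functionField_isFractionRing_of_isAffineOpen Z W hW
  let φA : Γ(Z, W) →ₐ[k] Z.functionField :=
    { algebraMap Γ(Z, W) Z.functionField with
      commutes' := by
        intro c
        change Z.presheaf.germ W (genericPoint Z) hgW (toSec z W c) = _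
        rw [toSec_germ, hk] }
  have hfc : ∀ i, ((π i).app W).hom.Finite := fun i => IsFinite.finite_app (π i) W hW
  have hχ : ∀ χ : Γ(Z, W) →ₐ[k] k, ∃ i, ∃ τ : Γ(Y i, π i ⁻¹ᵁ W) →+* k,
      τ.comp ((π i).app W).hom = (χ : Γ(Z, W) →+* k) := by
    intro χ
    by_contra hcon
    push Not at hcon
    have h2 : (Spec.map (CommRingCat.ofHom (χ : Γ(Z, W) →+* k)) ≫ hW.fromSpec :
        Spec (CommRingCat.of k) ⟶ Z) (IsLocalRing.closedPoint k) ∈ U ∩
        {x : Z | ∃ s : Spec (CommRingCat.of k) ⟶ Z, s ≫ z = 𝟙 _ ∧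
      x ∈ Set.range s.base ∧
      ∀ i (t : Spec (CommRingCat.of k) ⟶ Y i), t ≫ π i ≠ s} := by
      refine ⟨?_, ?_⟩
      · apply hWU
        have h4 := preimage_eq_top W hW (χ : Γ(Z, W) →+* k)
        have h5 : (IsLocalRing.closedPoint k) ∈
          (Spec.map (CommRingCat.ofHom (χ : Γ(Z, W) →+* k)) ≫ hW.fromSpec :
            Spec (CommRingCat.of k) ⟶ Z) ⁻¹ᵁ W := by
          rw [h4]; trivial
        exact h5
      · refine ⟨_, point_comp z W hW (χ : Γ(Z, W) →+* k) (fun c => χ.commutes c), ⟨_, rfl⟩, ?_⟩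
        intro i t ht
        obtain ⟨τ, hτ⟩ := exists_lift_of_point (π i) W hW (χ : Γ(Z, W) →+* k) t ht
        exact hcon i τ hτ
    rw [hUS] at h2
    exact h2
  obtain ⟨i, ψ, hψ⟩ := exists_lift_hom_of_hil hH Γ(Z, W) φA (fun i => Γ(Y i, π i ⁻¹ᵁ W))
    (fun i => ((π i).app W).hom) hfc hχ
  have := hY i
  have := hfin i
  have := hsurj i
  have h2 : genericPoint (Y i) ∈ π i ⁻¹ᵁ W := genericPoint_mem_preimage (π i) W hgW
  have hneY : Nonempty (π i ⁻¹ᵁ W : (Y i).Opens) := ⟨⟨_, h2⟩⟩
  have hfrY := functionField_isFractionRing_of_isAffineOpen (Y i) (π i ⁻¹ᵁ W) (hW.preimage (π i))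
  obtain ⟨Ψ, hΨ⟩ := exists_extension (A := Γ(Z, W)) (B := Γ(Y i, π i ⁻¹ᵁ W)) ((π i).app W).hom
    (hfc i) (kap (π i)) (fun a => kap_germ (π i) W hgW h2 a) (RingHom.id Z.functionField) ψ (by
      intro a
      exact congrArg (fun q : Γ(Z, W) →+* Z.functionField => q a) hψ)
  apply hiso i
  refine isIso_of_kap (π i) (fun p => ?_) (fun w => ⟨Ψ w, ?_⟩)
  · obtain ⟨V, hV', hpV, -⟩ := Z.isBasis_affineOpens.exists_subset_of_mem_open
      (Set.mem_univ p) isOpen_univ
    obtain ⟨V, hV, rfl⟩ := hV'
    exact ⟨V, hV, hpV, isIntegrallyClosed_sections hn V hV (genericPoint_mem V p hpV)⟩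
  · apply Ψ.injective
    have h3 := congrArg (fun q : Z.functionField →+* Z.functionField => q (Ψ w)) hΨ
    exact h3

/-- The Hilbert property of rational function fields over a field with specializations. -/
theorem hil_fractionRing (k : Type) [Field k] [CharZero k] (hs : HasSpec k) (n : ℕ) :
    Hil k (FractionRing (MvPolynomial (Fin n) k)) := by
  intro A _ _ _ F m P hP hroot
  obtain ⟨g, hg0, G, j, hj, rfl⟩ := H9_factor k n A F
  have hinj : Function.Injective (algebraMap (MvPolynomial (Fin n) k)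
      (FractionRing (MvPolynomial (Fin n) k))) := IsFractionRing.injective _ _
  -- clear denominators
  have h1 : ∀ i, ∃ (b : MvPolynomial (Fin n) k) (Q : (MvPolynomial (Fin n) k)[X]),
      b ∈ Submonoid.powers g ∧ Q.Monic ∧
      Q.map (algebraMap (MvPolynomial (Fin n) k) (Localization.Away g)) =
        ((P i).map (G : A →+* Localization.Away g)).scaleRoots (algebraMap _ _ b) := by
    intro i
    have hm : ((P i).map (G : A →+* Localization.Away g)).Monic := (hP i).map _
    have h := IsLocalization.scaleRoots_commonDenom_mem_lifts (Submonoid.powers g)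
      ((P i).map (G : A →+* Localization.Away g)) (by rw [hm.leadingCoeff]; exact one_mem _)
    obtain ⟨Q, hQ, _, hQm⟩ := Polynomial.lifts_and_natDegree_eq_and_monic h
      ((monic_scaleRoots_iff _).2 hm)
    exact ⟨_, Q, (IsLocalization.commonDenom (Submonoid.powers g) _ _).2, hQm, hQ⟩
  choose b Q hb hQm hQ using h1
  obtain ⟨τ, hτ, h2⟩ := hs.exists_point n Q hQm (by
    intro i r hr
    have hb0 : algebraMap (MvPolynomial (Fin n) k) (FractionRing (MvPolynomial (Fin n) k)) (b i) ≠ 0 := by
      intro h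
      have h0 : b i = 0 := hinj (by rw [h, map_zero])
      obtain ⟨m, hm⟩ := hb i
      exact pow_ne_zero m hg0 (hm.trans h0)
    apply hroot i (algebraMap _ _ r / algebraMap _ _ (b i))
    have h3 := scaleRoots_eval₂_mul (p := (P i).map (G : A →+* Localization.Away g))
      (j : Localization.Away g →+* FractionRing (MvPolynomial (Fin n) k))
      (algebraMap _ _ r / algebraMap _ _ (b i)) (algebraMap _ _ (b i))
    have h4 : (j : Localization.Away g →+* FractionRing (MvPolynomial (Fin n) k))
        (algebraMap _ _ (b i)) = algebraMap _ _ (b i) := hj _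
    have h5 : (j : Localization.Away g →+* FractionRing (MvPolynomial (Fin n) k)).comp
        (algebraMap (MvPolynomial (Fin n) k) (Localization.Away g)) =
        algebraMap (MvPolynomial (Fin n) k) (FractionRing (MvPolynomial (Fin n) k)) :=
      RingHom.ext hj
    rw [h4, mul_div_cancel₀ _ hb0, ← hQ, eval₂_map, h5, eval₂_at_apply,
      show Polynomial.eval r (Q i) = 0 from hr, map_zero, eq_comm, mul_eq_zero] at h3
    have h6 := h3.resolve_left (pow_ne_zero _ hb0)
    rw [IsRoot, Polynomial.eval_map]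
    rw [eval₂_map] at h6
    exact h6) g hg0
  have hunit : ∀ y : Submonoid.powers g, IsUnit ((MvPolynomial.aeval τ :
      MvPolynomial (Fin n) k →ₐ[k] k) y) := by
    rintro ⟨y, m, rfl⟩
    simp only [map_pow]
    exact (isUnit_iff_ne_zero.2 (by simpa [MvPolynomial.coe_aeval_eq_eval] using hτ)).pow m
  set ψ : Localization.Away g →ₐ[k] k :=
    IsLocalization.liftAlgHom (M := Submonoid.powers g) hunit with hψ
  have hψalg : ∀ p : MvPolynomial (Fin n) k, ψ (algebraMap _ _ p) = MvPolynomial.eval τ p := by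
    intro p
    rw [hψ, IsLocalization.liftAlgHom_apply, IsLocalization.lift_eq]
    simp [MvPolynomial.coe_aeval_eq_eval]
  refine ⟨ψ.comp G, fun i x hx => ?_⟩
  apply h2 i (ψ (algebraMap _ _ (b i)) * x)
  have h3 := scaleRoots_eval₂_mul (p := (P i).map (G : A →+* Localization.Away g))
    (ψ : Localization.Away g →+* k) x (algebraMap _ _ (b i))
  have h5 : (ψ : Localization.Away g →+* k).comp
      (algebraMap (MvPolynomial (Fin n) k) (Localization.Away g)) = MvPolynomial.eval τ :=
    RingHom.ext hψalg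
  have h6 : eval₂ (ψ : Localization.Away g →+* k) x
      ((P i).map (G : A →+* Localization.Away g)) = 0 := by
    rw [IsRoot, Polynomial.eval_map] at hx
    rw [eval₂_map]
    exact hx
  rw [h6, mul_zero, ← hQ, eval₂_map, h5] at h3
  rw [IsRoot, Polynomial.eval_map]
  exact h3

/-- Transport of the Hilbert property of a field along an isomorphism. -/
theorem Hil.of_equiv {k κ κ' : Type} [Field k] [Field κ] [Field κ'] [Algebra k κ] [Algebra k κ']
    (h : Hil k κ) (e : κ' ≃+* κ) (he : ∀ c : k, e (algebraMap k κ' c) = algebraMap k κ c) :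
    Hil k κ' := by
  intro A _ _ _ F m P hP hroot
  let e' : κ' →ₐ[k] κ := { (e : κ' →+* κ) with commutes' := he }
  refine h A (e'.comp F) m P hP fun i r hr => hroot i (e.symm r) ?_
  have h1 : ((e'.comp F : A →ₐ[k] κ) : A →+* κ) = (e : κ' →+* κ).comp (F : A →+* κ') :=
    RingHom.ext fun _ => rfl
  rw [h1, ← Polynomial.map_map, IsRoot, Polynomial.eval_map] at hr
  rw [IsRoot]
  apply e.injective
  have h2 := Polynomial.hom_eval₂ ((P i).map (F : A →+* κ')) (RingHom.id κ') (e : κ' →+* κ)
    (e.symm r)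
  rw [RingHom.comp_id] at h2
  have h3 : (e : κ' →+* κ) (e.symm r) = r := e.apply_symm_apply r
  rw [h3, hr] at h2
  rw [map_zero]
  exact h2

/-- The Hilbert property of rational varieties over finitely generated fields. -/
theorem hilbertProp_of_rational {k : Type} [Field k] [CharZero k] [Algebra.EssFiniteType ℚ k]
    {Z : Scheme.{0}} [IsIntegral Z]
    (z : Z ⟶ Spec (CommRingCat.of k)) [LocallyOfFiniteType z]
    (hn : ∀ p : Z, IsIntegrallyClosed (Z.presheaf.stalk p)) (n : ℕ)
    (e : Z.functionField ≃+* FractionRing (MvPolynomial (Fin n) k))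
    (he : ∀ c : k, e (toStalk z (genericPoint Z) c) =
      algebraMap k (FractionRing (MvPolynomial (Fin n) k)) c) : HilbertProp z := by
  let _ : Algebra k Z.functionField := (toStalk z (genericPoint Z)).toAlgebra
  exact hilbertProp_of_hil z (fun _ => rfl) hn
    (Hil.of_equiv (hil_fractionRing k (hasSpec_of_fg k) n) e he)

end Pool.Agent.LibZ64
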