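import Pool.Agent.LibHP.S2

/-!
An extension of the function field which is unramified at a point preserves derivations there.
-/

set_option autoImplicit false

open AlgebraicGeometry CategoryTheory

namespace Pool.Agent.LibZ64

open Pool.Agent.LibHP

/-- The finite extension `j` of the function field is unramified at `x`: the integral closure of the
local ring at `x` is unramified over it. -/
def UnramifiedAt {X : Scheme} [IsIntegral X] {M : Type} [Field M] (j : X.functionField →+* M)
    (x : X) : Prop :=
  letI := (j.comp (algebraMap (X.presheaf.stalk x) X.functionField)).toAlgebra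
  Algebra.FormallyUnramified (X.presheaf.stalk x) (integralClosure (X.presheaf.stalk x) M)

theorem deriv_integralClosure {O : Type*} {M : Type} [CommRing O] [Field M] [Algebra O M]
    [Algebra.FormallyUnramified O (integralClosure O M)] (D : Derivation ℤ M M)
    (hD : ∀ y : O, ∃ y' : O, D (algebraMap O M y) = algebraMap O M y') (b : M)
    (hb : IsIntegral O b) : IsIntegral O (D b) := by
  let B := integralClosure O M
  let N : Submodule B M := LinearMap.range (Algebra.linearMap B M)
  have hN : ∀ m : M, m ∈ N ↔ IsIntegral O m := by
    intro m
    constructor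
    · rintro ⟨a, rfl⟩
      exact a.2
    · intro h
      exact ⟨⟨m, h⟩, rfl⟩
  have hO : ∀ y : O, N.mkQ (D (algebraMap O M y)) = 0 := by
    intro y
    obtain ⟨y', hy'⟩ := hD y
    rw [Submodule.mkQ_apply, Submodule.Quotient.mk_eq_zero, hN, hy']
    exact isIntegral_algebraMap
  let D' : Derivation O B (M ⧸ N) :=
    { toFun := fun a => N.mkQ (D (a : M))
      map_add' := fun a c => by
        rw [show ((a + c : B) : M) = (a : M) + (c : M) from rfl, map_add, map_add]
      map_smul' := fun y a => by
        have h1 : ((y • a : B) : M) = algebraMap O M y * (a : M) := by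
          rw [← Algebra.smul_def]
          rfl
        change N.mkQ (D ((y • a : B) : M)) = y • N.mkQ (D (a : M))
        rw [h1, Derivation.leibniz, map_add]
        have h2 : N.mkQ ((a : M) • D (algebraMap O M y)) = 0 := by
          have h3 : (a : M) • D (algebraMap O M y) = (a : B) • D (algebraMap O M y) := rfl
          rw [h3, map_smul, hO, smul_zero]
        rw [h2, add_zero]
        have h4 : algebraMap O M y • D (a : M) = y • D (a : M) := by
          rw [Algebra.smul_def y, smul_eq_mul]
        rw [h4]
        rfl
      map_one_eq_zero' := by
        change N.mkQ (D ((1 : B) : M)) = 0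
        rw [show ((1 : B) : M) = 1 from rfl, Derivation.map_one_eq_zero, map_zero]
      leibniz' := fun a c => by
        change N.mkQ (D ((a * c : B) : M)) = a • N.mkQ (D (c : M)) + c • N.mkQ (D (a : M))
        rw [show ((a * c : B) : M) = (a : M) * (c : M) from rfl, Derivation.leibniz, map_add]
        rfl }
  have hsub : Subsingleton (Ω[B⁄O]) :=
    Algebra.FormallyUnramified.subsingleton_kaehlerDifferential
  have hz : D' = 0 := by
    rw [← D'.liftKaehlerDifferential_comp]
    have : D'.liftKaehlerDifferential = 0 := by
      apply LinearMap.ext
      intro a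
      have h0 : a = 0 := Subsingleton.elim _ _
      rw [h0, map_zero, map_zero]
    rw [this]
    ext a
    rfl
  have h5 : D' ⟨b, hb⟩ = 0 := by rw [hz]; rfl
  have h6 : N.mkQ (D b) = 0 := h5
  rw [Submodule.mkQ_apply, Submodule.Quotient.mk_eq_zero, hN] at h6
  exact h6

theorem UnramifiedAt.presAt {X : Scheme} [AlgebraicGeometry.IsIntegral X] {M : Type} [Field M]
    {j : X.functionField →+* M} {x : X} (h : UnramifiedAt j x) : PresAt j x := by
  intro D hD b hb
  let _ : Algebra (X.presheaf.stalk x) M :=
    (j.comp (algebraMap (X.presheaf.stalk x) X.functionField)).toAlgebra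
  have : Algebra.FormallyUnramified (X.presheaf.stalk x)
    (integralClosure (X.presheaf.stalk x) M) := h
  exact deriv_integralClosure (O := X.presheaf.stalk x) D hD b hb

end Pool.Agent.LibZ64
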