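import Pool.Agent.LibZ64.A4
import Pool.Agent.LibK3P.PN
import Pool.Agent.LibK3P.BR2
import Pool.Agent.LibK3G.WH4

/-!
THEOREM Z, weak form: descent of the Hilbert property from varieties with the weak Hilbert property.
-/

set_option autoImplicit false

open Pool.Agent.LibGMM Pool.Agent.LibHP Pool.Agent.LibK3 Pool.Agent.LibK3G Pool.Agent.LibK3M
open AlgebraicGeometry CategoryTheory

namespace Pool.Agent.LibZ64

/-- The field `N` contains no new constants. -/
def NoNewConst {k : Type} [Field k] {Z : Scheme.{0}} [IsIntegral Z]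
    (z : Z ⟶ Spec (CommRingCat.of k)) (N : Type) [Field N] [Algebra Z.functionField N] : Prop :=
  ∀ α : N, (∃ h : Polynomial k, h ≠ 0 ∧
    h.eval₂ ((algebraMap Z.functionField N).comp (toStalk z (genericPoint Z))) α = 0) →
    ∃ c : k, algebraMap Z.functionField N (toStalk z (genericPoint Z) c) = α

/-- `N` is the function field of a finite etale cover of `Z` without new constants (of the trivial
cover if `Z` has the Hilbert property). -/
structure EtaleExt {k : Type} [Field k] {Z : Scheme.{0}} [IsIntegral Z]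
    (z : Z ⟶ Spec (CommRingCat.of k)) (N : Type) [Field N] [Algebra Z.functionField N] : Prop where
  fin : Module.Finite Z.functionField N
  unram : UnramOver Z N
  noConst : NoNewConst z N
  triv : HilbertProp z → Function.Surjective (algebraMap Z.functionField N)

/-- The pseudo-automorphisms of `X` over `k`: the automorphisms of the function field over `k` which
permute the local rings of the points of codimension one of `X`. -/
def psG {k : Type} [Field k] {X : Scheme.{0}} [IsIntegral X] (f : X ⟶ Spec (CommRingCat.of k)) :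
    Subgroup (X.functionField ≃+* X.functionField) where
  carrier := {τ | (∀ c : k, τ (toStalk f (genericPoint X) c) = toStalk f (genericPoint X) c) ∧
    (∀ x : X, ringKrullDim (X.presheaf.stalk x) = 1 →
      ∃ y : X, ringKrullDim (X.presheaf.stalk y) = 1 ∧ τ '' stk X x = stk X y) ∧
    (∀ y : X, ringKrullDim (X.presheaf.stalk y) = 1 →
      ∃ x : X, ringKrullDim (X.presheaf.stalk x) = 1 ∧ τ '' stk X x = stk X y)}
  one_mem' := by
    refine ⟨fun _ => rfl, fun x hx => ⟨x, hx, ?_⟩, fun x hx => ⟨x, hx, ?_⟩⟩ <;>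
    exact Set.image_id _
  mul_mem' := by
    rintro a b ⟨ha, ha1, ha2⟩ ⟨hb, hb1, hb2⟩
    have him : ∀ S : Set X.functionField, (a * b : X.functionField ≃+* X.functionField) '' S =
        a '' (b '' S) := by
      intro S
      rw [Set.image_image]
      rfl
    refine ⟨fun c => ?_, fun x hx => ?_, fun y hy => ?_⟩
    · change a (b _) = _
      rw [hb, ha]
    · obtain ⟨y, hy, h1⟩ := hb1 x hx
      obtain ⟨w, hw, h2⟩ := ha1 y hy
      exact ⟨w, hw, by rw [him, h1, h2]⟩
    · obtain ⟨x, hx, h1⟩ := ha2 y hy
      obtain ⟨w, hw, h2⟩ := hb2 x hx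
      exact ⟨w, hw, by rw [him, h2, h1]⟩
  inv_mem' := by
    rintro a ⟨ha, ha1, ha2⟩
    have him : ∀ S T : Set X.functionField, a '' S = T →
        (a⁻¹ : X.functionField ≃+* X.functionField) '' T = S := by
      rintro S T rfl
      rw [Set.image_image]
      have h : ∀ t ∈ S, (a⁻¹ : X.functionField ≃+* X.functionField) (a t) = t :=
        fun t _ => a.symm_apply_apply t
      rw [Set.image_congr h, Set.image_id']
    refine ⟨fun c => ?_, fun x hx => ?_, fun y hy => ?_⟩
    · change a.symm _ = _
      rw [RingEquiv.symm_apply_eq, ha]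
    · obtain ⟨w, hw, h2⟩ := ha2 x hx
      exact ⟨w, hw, him _ _ h2⟩
    · obtain ⟨w, hw, h2⟩ := ha1 y hy
      exact ⟨w, hw, him _ _ h2⟩

/-- The action of a group of automorphisms on the subsets of a field. -/
@[reducible] def actSets {K : Type} [Field K] (G : Subgroup (K ≃+* K)) : MulAction G (Set K) where
  smul g S := (g : K ≃+* K) '' S
  one_smul S := Set.image_id S
  mul_smul a b S := by
    change ((a * b : G) : K ≃+* K) '' S = (a : K ≃+* K) '' ((b : K ≃+* K) '' S)
    rw [Set.image_image]
    rfl

/-- Avoiding a finite set of points of codimension one. -/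
theorem exists_ps_avoid {k : Type} [Field k] {X : Scheme.{0}} [IsIntegral X]
    (f : X ⟶ Spec (CommRingCat.of k)) [IsSeparated f]
    (G : Subgroup (X.functionField ≃+* X.functionField)) {n : ℕ} (b : Fin n → X)
    (hb : ∀ i, {y : X | ringKrullDim (X.presheaf.stalk y) = 1 ∧
      ∃ τ ∈ G, τ '' stk X (b i) = stk X y}.Infinite)
    {R : Set X} (hR : R.Finite) :
    ∃ σ ∈ G, ∀ i, ∀ y ∈ R, σ '' stk X (b i) ≠ stk X y := by
  let _ := actSets G
  obtain ⟨h, hh⟩ := Pool.Agent.LibK3P.exists_avoid (G := G) (fun i => stk X (b i)) (by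
    intro i hfin
    refine hb i ?_
    refine Set.Finite.of_finite_image (f := stk X) (hfin.subset ?_) ?_
    · rintro _ ⟨y, ⟨-, τ, hτ, hxy⟩, rfl⟩
      exact ⟨⟨τ, hτ⟩, hxy⟩
    · intro y _ y' _ h
      exact Pool.Agent.LibK3P.stk_injective f h) (hR.image (stk X))
  refine ⟨h, h.2, fun i y hy hi => hh i ⟨y, hy, hi.symm⟩⟩

end Pool.Agent.LibZ64
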