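import Pool.Agent.LibZ64.W5

/-!
THEOREM Z, weak form: descent of the Hilbert property from varieties with the weak Hilbert property.
General form.
-/

set_option autoImplicit false

open Pool.Agent.LibGMM Pool.Agent.LibHP Pool.Agent.LibK3 Pool.Agent.LibK3G Pool.Agent.LibK3M
open AlgebraicGeometry CategoryTheory

namespace Pool.Agent.LibZ64

/-- Every finite extension of the function field of `X` which is contained in the function field of a
finite etale cover of `Z` is unramified over `y`. -/
def GoodAt {k : Type} [Field k] {X Z : Scheme.{0}} [IsIntegral X] [IsIntegral Z]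
    (z : Z ⟶ Spec (CommRingCat.of k)) (φ : X.functionField →+* Z.functionField) (y : X) : Prop :=
  ∀ (N : Type) [Field N] [Algebra Z.functionField N], EtaleExt z N →
    ∀ (E : Type) (_ : Field E) (j : X.functionField →+* E) (ψ : E →+* N), j.Finite →
      ψ.comp j = (algebraMap Z.functionField N).comp φ → PresAt j y

theorem two_le_finrank {K M : Type} [Field K] [Field M] [Algebra K M] [FiniteDimensional K M]
    (hns : ¬ Function.Surjective (algebraMap K M)) : 2 ≤ Module.finrank K M := by
  by_contra hlt
  have hpos : 0 < Module.finrank K M := Module.finrank_pos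
  have h1 : Module.finrank K M = 1 := by omega
  apply hns
  intro m
  obtain ⟨c, hc⟩ := (finrank_eq_one_iff_of_nonzero' (1 : M) one_ne_zero).1 h1 m
  refine ⟨c, ?_⟩
  rw [← hc, Algebra.smul_def, mul_one]

/-- **THEOREM Z, weak form.** -/
theorem main_weak_gen {k : Type} [Field k] [CharZero k] {X Z : Scheme.{0}} [IsIntegral X]
    [IsIntegral Z] (f : X ⟶ Spec (CommRingCat.of k)) [Smooth f] [IsSeparated f] [QuasiCompact f]
    (z : Z ⟶ Spec (CommRingCat.of k)) [LocallyOfFiniteType z]
    (hn : ∀ p : Z, IsIntegrallyClosed (Z.presheaf.stalk p)) (hZ : WeakHilbertProp z)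
    (hZ0 : ¬ HilbertProp z) (φ : X.functionField →+* Z.functionField)
    (hφ : ∀ c : k, φ (toStalk f (genericPoint X) c) = toStalk z (genericPoint Z) c)
    (hR : {y : X | ringKrullDim (X.presheaf.stalk y) = 1 ∧ ¬ GoodAt z φ y}.Finite)
    (G : Subgroup (X.functionField ≃+* X.functionField)) (hG : G ≤ psG f)
    (U : X.Opens) [Nonempty U]
    (hU : GeomSimplyConnected (U.ι ≫ f) ∨
      ∀ (N : Type) [Field N] [Algebra Z.functionField N], EtaleExt z N →
        MapGenerates U (S1a_g ((algebraMap Z.functionField N).comp φ)))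
    (horb : ∀ x ∈ U, ringKrullDim (X.presheaf.stalk x) = 1 →
      {y : X | ringKrullDim (X.presheaf.stalk y) = 1 ∧
        ∃ τ ∈ G, τ '' stk X x = stk X y}.Infinite ∨ GoodAt z φ x) : HilbertProp f := by
  classical
  by_contra hnot
  obtain ⟨n, M, hM, j, hj, hemb⟩ := exists_unram_of_not_hilbertProp f hnot
  -- the points with infinite orbits
  set N0 : Set X := {x | ringKrullDim (X.presheaf.stalk x) = 1 ∧
    {y : X | ringKrullDim (X.presheaf.stalk y) = 1 ∧
      ∃ τ ∈ G, τ '' stk X x = stk X y}.Infinite} with hN0
  have hstab : ∀ x ∈ N0, ∀ σ ∈ G, ∀ y : X, ringKrullDim (X.presheaf.stalk y) = 1 →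
      σ '' stk X y = stk X x → y ∈ N0 := by
    rintro x ⟨hx, hinf⟩ σ hσ y hy hyx
    refine ⟨hy, hinf.mono ?_⟩
    rintro w ⟨hw, τ, hτ, h⟩
    refine ⟨hw, τ * σ, G.mul_mem hτ hσ, ?_⟩
    rw [← h, ← hyx, Set.image_image]
    rfl
  -- the extensions which are ramified over some point with infinite orbit
  let I := {i : Fin n // ∃ b ∈ N0, ¬ PresAt (j i) b}
  let e : I ≃ Fin (Fintype.card I) := Fintype.equivFin I
  have hb : ∀ i : I, ∃ b ∈ N0, ¬ PresAt (j i) b := fun i => i.2
  choose b hbN hbP using hb
  obtain ⟨σ, hσG, hav⟩ := exists_ps_avoid f G (fun m => b (e.symm m))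
    (fun m => (hbN (e.symm m)).2) hR
  have hσ := hG hσG
  obtain ⟨i, N, _, _, hNfin, hNun, hNc, ψ, hψ⟩ := hemb Z z hn hZ
    (φ.comp (σ : X.functionField →+* X.functionField)) (by
      intro c
      change φ (σ (toStalk f (genericPoint X) c)) = _
      rw [hσ.1 c, hφ c])
  have hN : EtaleExt z N := ⟨hNfin, hNun, hNc, fun h => absurd h hZ0⟩
  set j' : X.functionField →+* M i :=
    (j i).comp (σ.symm : X.functionField →+* X.functionField) with hj'
  have hψ' : ψ.comp j' = (algebraMap Z.functionField N).comp φ := by
    ext a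
    have := congrArg (fun q : X.functionField →+* N => q (σ.symm a)) hψ
    change ψ (j i (σ.symm a)) = algebraMap Z.functionField N (φ (σ (σ.symm a))) at this
    rw [σ.apply_symm_apply] at this
    exact this
  have hj'fin : j'.Finite :=
    (hj i).1.comp (RingHom.Finite.of_surjective _ σ.symm.surjective)
  -- `j'` is unramified over the good points
  have hkey : ∀ y : X, GoodAt z φ y → PresAt j' y := fun y hp =>
    hp N hN (M i) inferInstance j' ψ hj'fin hψ'
  -- transport by `σ`
  have htr : ∀ x y : X, σ '' stk X x = stk X y →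
      Set.range (stalkTo j' y) = Set.range (stalkTo (j i) x) := by
    intro x y hxy
    rw [range_stalkTo, range_stalkTo, ← hxy, Set.image_image]
    apply Set.image_congr
    intro a _
    change j i (σ.symm (σ a)) = j i a
    rw [σ.symm_apply_apply]
  -- `j i` is unramified over the points with infinite orbit
  have htype : ∀ x ∈ N0, PresAt (j i) x := by
    by_contra hcon
    push Not at hcon
    obtain ⟨x, hx, hxp⟩ := hcon
    let i' : I := ⟨i, x, hx, hxp⟩
    obtain ⟨y, hy, hxy⟩ := hσ.2.1 (b i') (hbN i').1
    have h1 : GoodAt z φ y := by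
      by_contra h2
      refine hav (e i') y ⟨hy, h2⟩ ?_
      rw [e.symm_apply_apply]
      exact hxy
    exact hbP i' (presAt_of_range _ _ y (b i') (htr _ _ hxy) (hkey y h1))
  have hpres : ∀ x ∈ U, ringKrullDim (X.presheaf.stalk x) = 1 → PresAt j' x := by
    intro x hxU hx
    rcases horb x hxU hx with h | h
    · obtain ⟨y, hy, hyx⟩ := hσ.2.2 x hx
      exact presAt_of_range _ _ y x (htr _ _ hyx).symm
        (htype y (hstab x ⟨hx, h⟩ σ hσG y hy hyx))
    · exact hkey x h
  have hsurj : Function.Surjective j' := by
    rcases hU with hU | hU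
    · by_contra hns
      let _ : Algebra X.functionField (M i) := j'.toAlgebra
      have hfd : FiniteDimensional X.functionField (M i) := (RingHom.finite_algebraMap).1 hj'fin
      have h2 : 2 ≤ Module.finrank X.functionField (M i) := two_le_finrank hns
      obtain ⟨α, ⟨h, hh0, hh⟩, hα⟩ := exists_const_open f U hU (M i) h2 hpres
      have hc5 : ∀ c : k, ψ (j' (toStalk f (genericPoint X) c)) =
          algebraMap Z.functionField N (toStalk z (genericPoint Z) c) := by
        intro c
        have h5 := congrArg (fun q : X.functionField →+* N =>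
          q (toStalk f (genericPoint X) c)) hψ'
        refine h5.trans ?_
        change algebraMap Z.functionField N (φ _) = _
        rw [hφ]
      obtain ⟨c, hc⟩ := hNc (ψ α) ⟨h, hh0, by
        have h3 := Polynomial.hom_eval₂ h
          ((algebraMap X.functionField (M i)).comp (toStalk f (genericPoint X))) ψ α
        rw [hh, map_zero] at h3
        have h4 : ψ.comp ((algebraMap X.functionField (M i)).comp (toStalk f (genericPoint X))) =
            (algebraMap Z.functionField N).comp (toStalk z (genericPoint Z)) := by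
          ext c
          exact hc5 c
        rw [h4] at h3
        exact h3.symm⟩
      apply hα c
      apply ψ.injective
      exact (hc5 c).trans hc
    · exact surjective_of_factor f U (M i) N j' hj'fin hpres ψ (by
        rw [hψ']
        exact hU N hN)
  apply (hj i).2
  intro m
  obtain ⟨a, ha⟩ := hsurj m
  exact ⟨σ.symm a, ha⟩

end Pool.Agent.LibZ64
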