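import Pool.Agent.LibZ64.W6
import Pool.Agent.LibK3G.GT2
import Pool.Agent.LibZ96.G4a
import Pool.Agent.LibK3G.WH5

/-!
THEOREM Z: descent of the Hilbert property along dominant rational maps, from varieties with the
Hilbert property or proper varieties with the weak Hilbert property.
-/

set_option autoImplicit false

open Pool.Agent.LibGMM Pool.Agent.LibHP Pool.Agent.LibK3 Pool.Agent.LibK3G Pool.Agent.LibK3M
open AlgebraicGeometry CategoryTheory

namespace Pool.Agent.LibZ64

theorem inj_eval {X : Scheme.{0}} [IsIntegral X] (L : Type) [Field L] [Algebra X.functionField L]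
    (r : ℕ) (s : Fin r → L) (hs : AlgebraicIndependent X.functionField s) (y : X) :
    Function.Injective (MvPolynomial.eval₂Hom (stalkTo (algebraMap X.functionField L) y) s) := by
  have h1 : MvPolynomial.eval₂Hom (stalkTo (algebraMap X.functionField L) y) s =
      (MvPolynomial.aeval s : MvPolynomial (Fin r) X.functionField →ₐ[X.functionField] L).toRingHom.comp
        (MvPolynomial.map (algebraMap (X.presheaf.stalk y) X.functionField)) := by
    ext a
    · simp [stalkTo]
    · simp
  rw [h1]
  have h2 : Function.Injective (MvPolynomial.aeval s :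
      MvPolynomial (Fin r) X.functionField →ₐ[X.functionField] L) := hs
  exact h2.comp (MvPolynomial.map_injective _
    (IsFractionRing.injective (X.presheaf.stalk y) X.functionField))

/-- All but finitely many points of codimension one are good. -/
theorem finite_not_goodAt {k : Type} [Field k] [CharZero k] {X Z : Scheme.{0}} [IsIntegral X]
    [IsIntegral Z] (f : X ⟶ Spec (CommRingCat.of k)) [Smooth f] [QuasiCompact f]
    (z : Z ⟶ Spec (CommRingCat.of k)) [IsProper z]
    (hn : ∀ p : Z, IsIntegrallyClosed (Z.presheaf.stalk p))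
    (φ : X.functionField →+* Z.functionField)
    (hφ : ∀ c : k, φ (toStalk f (genericPoint X) c) = toStalk z (genericPoint Z) c) :
    {y : X | ringKrullDim (X.presheaf.stalk y) = 1 ∧ ¬ GoodAt z φ y}.Finite := by
  let _ : Algebra k Z.functionField := (toStalk z (genericPoint Z)).toAlgebra
  let _ : Algebra k X.functionField := (toStalk f (genericPoint X)).toAlgebra
  let _ : Algebra X.functionField Z.functionField := φ.toAlgebra
  have htow : IsScalarTower k X.functionField Z.functionField :=
    IsScalarTower.of_algebraMap_eq fun c => (hφ c).symm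
  have hess0 : Algebra.EssFiniteType k Z.functionField :=
    essFiniteType_functionField z fun _ => rfl
  have hess : Algebra.EssFiniteType X.functionField Z.functionField :=
    Algebra.EssFiniteType.of_comp k X.functionField Z.functionField
  obtain ⟨r, s, hs, hfin⟩ := exists_transcendenceBasis X.functionField Z.functionField
  refine (finite_not_pres_gaussHom f Z.functionField r s hs.1 hfin
    (inj_eval Z.functionField r s hs.1)).subset ?_
  rintro y ⟨hy, hbad⟩
  refine ⟨hy, fun hP => hbad ?_⟩
  intro N _ _ hN E _ j ψ hj hψ
  exact LibZ96.presAt_of_gauss f z hn φ hφ r s hs y hy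
    (inj_eval Z.functionField r s hs.1 y) hP N hN.fin hN.unram E j ψ hj hψ

/-- `k` is algebraically closed in the function field of a normal variety with the Hilbert
property. -/
theorem noNewConst_self {k : Type} [Field k] [CharZero k] {Z : Scheme.{0}} [IsIntegral Z]
    (z : Z ⟶ Spec (CommRingCat.of k)) [LocallyOfFiniteType z]
    (hn : ∀ p : Z, IsIntegrallyClosed (Z.presheaf.stalk p)) (hZ : HilbertProp z) :
    NoNewConst z Z.functionField := by
  let _ : Algebra k Z.functionField := (toStalk z (genericPoint Z)).toAlgebra
  have hH : Hil k Z.functionField := hil_of_hilbertProp z (fun _ => rfl) hn hZ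
  intro α hα
  exact const_of_hil hH α hα

theorem etaleExt_self {k : Type} [Field k] [CharZero k] {Z : Scheme.{0}} [IsIntegral Z]
    (z : Z ⟶ Spec (CommRingCat.of k)) [LocallyOfFiniteType z]
    (hn : ∀ p : Z, IsIntegrallyClosed (Z.presheaf.stalk p)) (hZ : HilbertProp z) :
    EtaleExt z Z.functionField where
  fin := inferInstance
  unram := unramOver_self hn
  noConst := noNewConst_self z hn hZ
  triv := fun _ a => ⟨a, rfl⟩

/-- **THEOREM Z.** -/
theorem main_Z {k : Type} [Field k] [CharZero k] {X Z : Scheme.{0}} [IsIntegral X]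
    [IsIntegral Z] (f : X ⟶ Spec (CommRingCat.of k)) [Smooth f] [IsSeparated f] [QuasiCompact f]
    (z : Z ⟶ Spec (CommRingCat.of k)) [LocallyOfFiniteType z]
    (hn : ∀ p : Z, IsIntegrallyClosed (Z.presheaf.stalk p))
    (φ : X.functionField →+* Z.functionField)
    (hφ : ∀ c : k, φ (toStalk f (genericPoint X) c) = toStalk z (genericPoint Z) c)
    (G : Subgroup (X.functionField ≃+* X.functionField))
    (hG : ∀ τ ∈ G, ∀ c : k, τ (toStalk f (genericPoint X) c) = toStalk f (genericPoint X) c)
    (hZ : HilbertProp z ∨ (IsProper z ∧ WeakHilbertProp z ∧ G ≤ psG f))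
    (U : X.Opens) [Nonempty U]
    (hU : GeomSimplyConnected (U.ι ≫ f) ∨
      ∀ (N : Type) [Field N] [Algebra Z.functionField N], EtaleExt z N →
        MapGenerates U (S1a_g ((algebraMap Z.functionField N).comp φ)))
    (horb : ∀ x ∈ U, ringKrullDim (X.presheaf.stalk x) = 1 →
      {y : X | ringKrullDim (X.presheaf.stalk y) = 1 ∧
        ∃ τ ∈ G, τ '' stk X x = stk X y}.Infinite ∨ GoodAt z φ x) : HilbertProp f := by
  by_cases hZ0 : HilbertProp z
  · have hE := etaleExt_self z hn hZ0
    have h1 : (algebraMap Z.functionField Z.functionField).comp φ = φ := RingHom.ext fun _ => rfl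
    refine main_dominated f z hn hZ0 φ hφ U (hU.imp id fun h => ?_) fun x hxU hx => ?_
    · have := h Z.functionField hE
      rwa [h1] at this
    · rcases horb x hxU hx with h | h
      · refine Or.inl (h.mono ?_)
        rintro y ⟨hy, τ, hτ, hxy⟩
        exact ⟨hy, τ, hG τ hτ, hxy⟩
      · refine Or.inr fun M _ j ψ hj hψ => ?_
        exact h Z.functionField hE M inferInstance j ψ hj (by rw [h1]; exact hψ)
  · obtain ⟨hp, hw, hG'⟩ := hZ.resolve_left hZ0
    exact main_weak_gen f z hn hw hZ0 φ hφ (finite_not_goodAt f z hn φ hφ) G hG' U hU horb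

end Pool.Agent.LibZ64
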